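import Pool.Agent.Lib.PTV.VMain
import Pool.Agent.Lib.SLT.ZFinal

/-! # Theorem V for `FreeAct`, and the groups which are virtually in products of `GL₂` -/

set_option autoImplicit false

namespace Pool.Agent.Lib.PTV

open Pool.Agent.Lib.MP_16fe43_al
open Pool.Agent.Lib.BHS16 (TorsionFree LowKVanishing Wh)
open Pool.Agent.Lib.SLT (FreeAct z_final)
open scoped MatrixGroups

/-- Theorem V from the theorem on free actions, for a finite family of trees -/
theorem v_of_core_freeAct
    (core : ∀ {G V S : Type} [Group G] [MulAction G V] [MulAction G S], FData G V S →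
      Subsingleton (Wh G))
    (G : Type) [Group G] (K : Subgroup G) [K.FiniteIndex] (tf : TorsionFree G) (h : FreeAct K) :
    StV G := by
  obtain ⟨ι, hι, X, T, act, hT, hadj, hfree⟩ := h
  obtain ⟨n, ⟨e⟩⟩ := Finite.exists_equiv_fin ι
  have hfree' : ∀ g : K, (∀ i : Fin n, ∃ x : X (e.symm i), g • x = x) → g = 1 := by
    intro g hg
    have key : ∀ i j : ι, (∃ x : X j, g • x = x) → j = i → ∃ x : X i, g • x = x := by
      rintro i j h rfl
      exact h
    exact hfree g fun i => key i _ (hg (e i)) (e.symm_apply_apply i)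
  exact v_of_core core tf K (fun i => X (e.symm i)) (fun i => T (e.symm i))
    (fun i => hT _) (fun i => hadj _) hfree'

/-- Theorem V for torsion-free groups with a finite index subgroup in a product of groups `GL₂(F i)`, all
of positive characteristic -/
theorem gl_of_core
    (core : ∀ {G V S : Type} [Group G] [MulAction G V] [MulAction G S], FData G V S →
      Subsingleton (Wh G))
    {G : Type} [Group G] (tf : TorsionFree G) (K : Subgroup G) [K.FiniteIndex] {m : ℕ}
    (p : Fin m → ℕ) (hp : ∀ i, (p i).Prime) (F : Fin m → Type) [∀ i, Field (F i)]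
    [∀ i, CharP (F i) (p i)] (ρ : ∀ i, K →* GL (Fin 2) (F i))
    (inj : ∀ g : K, (∀ i, ρ i g = 1) → g = 1) : StV G :=
  z_final (fun G _ K _ tf h => v_of_core_freeAct core G K tf h) tf K p hp F ρ inj

end Pool.Agent.Lib.PTV
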